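import Mathlib
import Pool.Agent.L7h26.NS.Final

/-!
# MP_52cbbb_an: the maximal nodal count in a two-dimensional Neumann eigenspace of the square

For every two-dimensional eigenspace `E_λ` of the Neumann Laplacian of the square `(0, π)²` the
largest number of nodal domains of a nonzero eigenfunction is the largest nodal count among
`Φ^θ`, `θ ∈ {0, π/4, π/2, 3π/4, π}` (positive answer to Q1).

The proof: if `|tan θ| < 1`, every nodal domain of `Φ^θ` comes arbitrarily close to a point
`(j π / p, k π / q)` at which `Φ^θ` does not vanish, so that there are at most `(p + 1) (q + 1)`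
nodal domains, which is the nodal count of `cos p x cos q y`.
-/

set_option autoImplicit false

open Real Set

namespace Pool.Agent.Results.MP_52cbbb_an.NeumannSquare

/-- the open square `(0, π)²` -/
def Omega : Set (ℝ × ℝ) := Ioo 0 π ×ˢ Ioo 0 π

/-- the nodal domains of `u`: the connected components of `Ω \ {u = 0}` -/
def nodalDomains (u : ℝ × ℝ → ℝ) : Set (Set (ℝ × ℝ)) :=
  {C | ∃ z ∈ Omega \ {z | u z = 0}, C = connectedComponentIn (Omega \ {z | u z = 0}) z}

/-- the number of nodal domains -/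
noncomputable def mu (u : ℝ × ℝ → ℝ) : ℕ∞ := (nodalDomains u).encard

/-- the Neumann eigenspace of `(0, π)²` with eigenvalue `lam`: the span of the functions
`cos m x cos n y` with `m² + n² = lam` -/
def eigenspace (lam : ℕ) : Submodule ℝ (ℝ × ℝ → ℝ) :=
  Submodule.span ℝ {f | ∃ m n : ℕ, m ^ 2 + n ^ 2 = lam ∧
    f = fun z => cos (m * z.1) * cos (n * z.2)}

/-- `Φ^θ (x, y) = cos θ cos p x cos q y + sin θ cos q x cos p y` -/
noncomputable def Phi (p q : ℕ) (θ : ℝ) (z : ℝ × ℝ) : ℝ :=
  cos θ * (cos (p * z.1) * cos (q * z.2)) + sin θ * (cos (q * z.1) * cos (p * z.2))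

lemma Phi_eq (p q : ℕ) (θ : ℝ) : Phi p q θ = L7h26.NS.UU p q (cos θ) (sin θ) := rfl

lemma nodal_eq (u : ℝ × ℝ → ℝ) : nodalDomains u = L7h26.NS.nodalDomains u := rfl

lemma UU_mem (p q : ℕ) (a b : ℝ) : L7h26.NS.UU p q a b ∈ eigenspace (p ^ 2 + q ^ 2) := by
  have h1 : (fun z : ℝ × ℝ => cos (p * z.1) * cos (q * z.2)) ∈ eigenspace (p ^ 2 + q ^ 2) :=
    Submodule.subset_span ⟨p, q, rfl, rfl⟩
  have h2 : (fun z : ℝ × ℝ => cos (q * z.1) * cos (p * z.2)) ∈ eigenspace (p ^ 2 + q ^ 2) :=
    Submodule.subset_span ⟨q, p, by ring, rfl⟩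
  exact Submodule.add_mem _ (Submodule.smul_mem _ a h1) (Submodule.smul_mem _ b h2)

lemma exists_UU {p q : ℕ}
    (h2 : ∀ m n : ℕ, m ^ 2 + n ^ 2 = p ^ 2 + q ^ 2 → (m = p ∧ n = q) ∨ (m = q ∧ n = p))
    {u : ℝ × ℝ → ℝ} (hu : u ∈ eigenspace (p ^ 2 + q ^ 2)) :
    ∃ a b, u = L7h26.NS.UU p q a b := by
  have hsub : {f : ℝ × ℝ → ℝ | ∃ m n : ℕ, m ^ 2 + n ^ 2 = p ^ 2 + q ^ 2 ∧
      f = fun z => cos (m * z.1) * cos (n * z.2)} ⊆
      {(fun z : ℝ × ℝ => cos (p * z.1) * cos (q * z.2)),
        (fun z : ℝ × ℝ => cos (q * z.1) * cos (p * z.2))} := by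
    rintro f ⟨m, n, hmn, rfl⟩
    rcases h2 m n hmn with ⟨rfl, rfl⟩ | ⟨rfl, rfl⟩
    · exact Or.inl rfl
    · exact Or.inr rfl
  have hu' := Submodule.span_mono hsub hu
  rw [Submodule.mem_span_pair] at hu'
  obtain ⟨a, b, rfl⟩ := hu'
  exact ⟨a, b, rfl⟩

lemma mu_le {p q : ℕ} (hqp : q < p) {a b : ℝ} (hab : |a| ≠ |b|) :
    mu (L7h26.NS.UU p q a b) ≤ mu (Phi p q 0) := by
  obtain ⟨h1, h2⟩ := L7h26.NS.upper' hqp hab
  have e : Phi p q 0 = L7h26.NS.UU p q 1 0 := by rw [Phi_eq, cos_zero, sin_zero]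
  have h3 := L7h26.NS.lower hqp (a := 1) one_ne_zero
  have h4 := (L7h26.NS.upper hqp (a := 1) (b := 0) (by simp)).1
  rw [e]
  unfold mu
  rw [nodal_eq, nodal_eq, ← h1.cast_ncard_eq, ← h4.cast_ncard_eq]
  exact_mod_cast h2.trans h3

lemma Phi_ne {p q : ℕ} (hqp : q < p) (θ : ℝ) : Phi p q θ ≠ 0 := by
  intro h
  have hp : (0 : ℝ) < p := by exact_mod_cast (by omega : 0 < p)
  have hpi := pi_pos
  have h0 : Phi p q θ (0, 0) = 0 := by rw [h]; rfl
  have h1 : Phi p q θ (π / p, 0) = 0 := by rw [h]; rfl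
  have e1 : (p : ℝ) * (π / p) = π := by field_simp
  simp only [Phi, mul_zero, cos_zero, mul_one, e1, cos_pi] at h0 h1
  have h2 : -1 < cos (q * (π / p)) := by
    have h3 : (q : ℝ) * (π / p) < π := by
      have h4 : (q : ℝ) < p := by exact_mod_cast hqp
      calc (q : ℝ) * (π / p) < p * (π / p) := mul_lt_mul_of_pos_right h4 (by positivity)
        _ = π := e1
    have h4 : 0 ≤ (q : ℝ) * (π / p) := by positivity
    have := cos_lt_cos_of_nonneg_of_le_pi h4 le_rfl h3
    rwa [cos_pi] at this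
  have hs : sin θ = 0 := by
    have : sin θ * (1 + cos (q * (π / p))) = 0 := by linarith
    exact (mul_eq_zero.1 this).resolve_right (by linarith)
  have hc : cos θ = 0 := by linarith
  have := sin_sq_add_cos_sq θ
  rw [hs, hc] at this
  norm_num at this

/-- **Main theorem.** Let `p > q ≥ 0` be such that `(p, q)` and `(q, p)` are the only pairs
`(m, n)` of natural numbers with `m² + n² = p² + q²`, that is, `E_λ` is two-dimensional for
`λ = p² + q²`. The largest number of nodal domains of a nonzero member of `E_λ` equals the largest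
number of nodal domains of `Φ^θ` with `θ ∈ {0, π/4, π/2, 3π/4, π}`. -/
theorem result (p q : ℕ) (hqp : q < p)
    (h2 : ∀ m n : ℕ, m ^ 2 + n ^ 2 = p ^ 2 + q ^ 2 → (m = p ∧ n = q) ∨ (m = q ∧ n = p)) :
    ∃ M : ℕ∞, IsGreatest {k | ∃ u ∈ eigenspace (p ^ 2 + q ^ 2), u ≠ 0 ∧ k = mu u} M ∧
      IsGreatest {k | ∃ θ ∈ ({0, π / 4, π / 2, 3 * π / 4, π} : Set ℝ), k = mu (Phi p q θ)} M := by
  set S : Set ℝ := {0, π / 4, π / 2, 3 * π / 4, π} with hS
  have hSfin : S.Finite := by
    rw [hS]
    exact ((((Set.finite_singleton _).insert _).insert _).insert _).insert _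
  obtain ⟨θ₀, hθ₀, hmax⟩ := Set.exists_max_image S (fun θ => mu (Phi p q θ)) hSfin ⟨0, by simp [hS]⟩
  refine ⟨mu (Phi p q θ₀), ⟨⟨Phi p q θ₀, UU_mem p q _ _, Phi_ne hqp θ₀, rfl⟩, ?_⟩,
    ⟨⟨θ₀, hθ₀, rfl⟩, ?_⟩⟩
  · rintro k ⟨u, hu, hu0, rfl⟩
    obtain ⟨a, b, rfl⟩ := exists_UU h2 hu
    by_cases hab : |a| = |b|
    · have ha : a ≠ 0 := by
        intro ha
        rw [ha, abs_zero] at hab
        have hb : b = 0 := abs_eq_zero.1 hab.symm
        apply hu0
        funext z
        unfold L7h26.NS.UU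
        rw [ha, hb]
        simp
      have h2pos : (0 : ℝ) < √2 / 2 := by positivity
      rcases abs_eq_abs.1 hab with h | h
      · have : mu (L7h26.NS.UU p q a b) = mu (Phi p q (π / 4)) := by
          unfold mu
          rw [nodal_eq, nodal_eq]
          congr 1
          apply L7h26.NS.nodalDomains_congr
          intro z
          unfold L7h26.NS.UU Phi
          rw [cos_pi_div_four, sin_pi_div_four, ← h, ← mul_add, ← mul_add, mul_eq_zero,
            mul_eq_zero]
          constructor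
          · rintro (h' | h')
            · exact absurd h' ha
            · exact Or.inr h'
          · rintro (h' | h')
            · exact absurd h' h2pos.ne'
            · exact Or.inr h'
        rw [this]
        exact hmax _ (by simp [hS])
      · have : mu (L7h26.NS.UU p q a b) = mu (Phi p q (3 * π / 4)) := by
          unfold mu
          rw [nodal_eq, nodal_eq]
          congr 1
          apply L7h26.NS.nodalDomains_congr
          intro z
          have hc : cos (3 * π / 4) = -(√2 / 2) := by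
            rw [show 3 * π / 4 = π - π / 4 by ring, cos_pi_sub, cos_pi_div_four]
          have hs : sin (3 * π / 4) = √2 / 2 := by
            rw [show 3 * π / 4 = π - π / 4 by ring, sin_pi_sub, sin_pi_div_four]
          have hb : b = -a := by rw [h]; ring
          unfold L7h26.NS.UU Phi
          rw [hc, hs, hb]
          have e1 : a * (cos (p * z.1) * cos (q * z.2)) + -a * (cos (q * z.1) * cos (p * z.2)) =
              a * (cos (p * z.1) * cos (q * z.2) - cos (q * z.1) * cos (p * z.2)) := by ring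
          have e2 : -(√2 / 2) * (cos (p * z.1) * cos (q * z.2)) +
              √2 / 2 * (cos (q * z.1) * cos (p * z.2)) =
              -(√2 / 2) * (cos (p * z.1) * cos (q * z.2) - cos (q * z.1) * cos (p * z.2)) := by
            ring
          rw [e1, e2, mul_eq_zero, mul_eq_zero]
          constructor
          · rintro (h' | h')
            · exact absurd h' ha
            · exact Or.inr h'
          · rintro (h' | h')
            · exact absurd h' (by linarith)
            · exact Or.inr h'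
        rw [this]
        exact hmax _ (by simp [hS])
    · exact (mu_le hqp hab).trans (hmax 0 (by simp [hS]))
  · rintro k ⟨θ, hθ, rfl⟩
    exact hmax θ hθ

end Pool.Agent.Results.MP_52cbbb_an.NeumannSquare
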